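import Mathlib

set_option autoImplicit false

/-!
Maximal ergodic inequality (Garsia's proof) and the pointwise ergodic theorem for bounded functions.
-/

namespace Pool.Agent.Lib.MP_cc859a_an

open MeasureTheory Filter Topology Set

variable {X : Type*}

/-- running maximum of the Birkhoff sums -/
noncomputable def mx (T : X → X) (f : X → ℝ) : ℕ → X → ℝ
  | 0 => fun _ => 0
  | (N + 1) => fun x => max 0 (f x + mx T f N (T x))

lemma mx_nonneg (T : X → X) (f : X → ℝ) (N : ℕ) (x : X) : 0 ≤ mx T f N x := by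
  cases N with
  | zero => simp [mx]
  | succ N => simp [mx]

lemma mx_le_succ (T : X → X) (f : X → ℝ) (N : ℕ) : ∀ x, mx T f N x ≤ mx T f (N + 1) x := by
  induction N with
  | zero => intro x; simp [mx]
  | succ N ih =>
    intro x
    have := ih (T x)
    show max 0 (f x + mx T f N (T x)) ≤ max 0 (f x + mx T f (N + 1) (T x))
    exact max_le_max le_rfl (by linarith)

lemma sum_le_mx (T : X → X) (f : X → ℝ) (N : ℕ) :
    ∀ x, ∑ k ∈ Finset.range N, f (T^[k] x) ≤ mx T f N x := by
  induction N with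
  | zero => intro x; simp [mx]
  | succ N ih =>
    intro x
    rw [Finset.sum_range_succ']
    have := ih (T x)
    show _ ≤ max 0 (f x + mx T f N (T x))
    refine le_trans ?_ (le_max_right _ _)
    simp only [Function.iterate_succ, Function.comp_apply, Function.iterate_zero, id_eq]
    linarith

variable [MeasurableSpace X] {μ : Measure X} {T : X → X}

lemma mx_measurable (hT : Measurable T) {f : X → ℝ} (hf : Measurable f) (N : ℕ) :
    Measurable (mx T f N) := by
  induction N with
  | zero => exact measurable_const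
  | succ N ih => exact measurable_const.max (hf.add (ih.comp hT))

lemma mx_integrable (hT : MeasurePreserving T μ μ) {f : X → ℝ} (hf : Integrable f μ) (N : ℕ) :
    Integrable (mx T f N) μ := by
  induction N with
  | zero => exact integrable_zero _ _ _
  | succ N ih =>
    have h1 : Integrable (fun x => f x + mx T f N (T x)) μ :=
      hf.add (hT.integrable_comp_of_integrable ih)
    exact (integrable_zero X ℝ μ).sup h1

lemma integral_comp_mp {E : Type*} [NormedAddCommGroup E] [NormedSpace ℝ E]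
    (hT : MeasurePreserving T μ μ) {g : X → E} (hg : AEStronglyMeasurable g μ) :
    ∫ x, g (T x) ∂μ = ∫ x, g x ∂μ := by
  have h := integral_map (μ := μ) hT.measurable.aemeasurable (f := g) (by rwa [hT.map_eq])
  rw [hT.map_eq] at h
  exact h.symm

lemma garsia (hT : MeasurePreserving T μ μ) {f : X → ℝ} (hm : Measurable f) (hf : Integrable f μ)
    (N : ℕ) : 0 ≤ ∫ x in {x | 0 < mx T f (N + 1) x}, f x ∂μ := by
  set E := {x | 0 < mx T f (N + 1) x} with hE
  have hEm : MeasurableSet E :=
    measurableSet_lt measurable_const (mx_measurable hT.measurable hm (N + 1))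
  have i1 := mx_integrable hT hf (N + 1)
  have i0 := mx_integrable hT hf N
  have i2 : Integrable (fun x => mx T f N (T x)) μ := hT.integrable_comp_of_integrable i0
  have key : ∀ x, mx T f (N + 1) x - mx T f N (T x) ≤ E.indicator f x := by
    intro x
    by_cases hx : x ∈ E
    · rw [indicator_of_mem hx]
      have h0 : 0 < max 0 (f x + mx T f N (T x)) := hx
      have h1 : mx T f (N + 1) x = f x + mx T f N (T x) := by
        show max 0 (f x + mx T f N (T x)) = _
        rcases le_total 0 (f x + mx T f N (T x)) with h | h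
        · exact max_eq_right h
        · rw [max_eq_left h] at h0; exact absurd h0 (lt_irrefl _)
      linarith
    · rw [indicator_of_notMem hx]
      have h0 : ¬ 0 < mx T f (N + 1) x := hx
      have := mx_nonneg T f N (T x)
      linarith [not_lt.1 h0]
  have h2 : ∫ x, (mx T f (N + 1) x - mx T f N (T x)) ∂μ ≤ ∫ x, E.indicator f x ∂μ :=
    integral_mono (i1.sub i2) (hf.indicator hEm) key
  rw [integral_sub i1 i2, integral_comp_mp hT i0.aestronglyMeasurable, integral_indicator hEm] at h2
  have h3 : ∫ x, mx T f N x ∂μ ≤ ∫ x, mx T f (N + 1) x ∂μ :=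
    integral_mono i0 i1 (mx_le_succ T f N)
  linarith

/-- weak type (1,1) maximal inequality -/
lemma maximal [IsFiniteMeasure μ] (hT : MeasurePreserving T μ μ) {φ : X → ℝ} (hm : Measurable φ)
    (hφ : Integrable φ μ) (h0 : ∀ x, 0 ≤ φ x) {l : ℝ} (hl : 0 ≤ l) :
    l * μ.real {x | ∃ N : ℕ, l * N < ∑ k ∈ Finset.range N, φ (T^[k] x)} ≤ ∫ x, φ x ∂μ := by
  set f : X → ℝ := fun x => φ x - l with hfdef
  have fm : Measurable f := hm.sub measurable_const
  have fi : Integrable f μ := hφ.sub (integrable_const l)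
  set E : ℕ → Set X := fun N => {x | 0 < mx T f (N + 1) x} with hE
  have hEm : ∀ N, MeasurableSet (E N) := fun N =>
    measurableSet_lt measurable_const (mx_measurable hT.measurable fm (N + 1))
  have hmono : Monotone E := monotone_nat_of_le_succ fun N x hx =>
    lt_of_lt_of_le hx (mx_le_succ T f (N + 1) x)
  have hb : ∀ N, l * μ.real (E N) ≤ ∫ x, φ x ∂μ := by
    intro N
    have h1 := garsia hT fm fi N
    have h2 : ∫ x in E N, f x ∂μ = ∫ x in E N, φ x ∂μ - l * μ.real (E N) := by
      rw [hfdef, integral_sub hφ.integrableOn (integrable_const l)]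
      simp [mul_comm]
    have h3 : ∫ x in E N, φ x ∂μ ≤ ∫ x, φ x ∂μ :=
      setIntegral_le_integral hφ (Eventually.of_forall h0)
    have h1' : 0 ≤ ∫ x in E N, f x ∂μ := h1
    linarith
  have hsub : {x | ∃ N : ℕ, l * N < ∑ k ∈ Finset.range N, φ (T^[k] x)} ⊆ ⋃ N, E N := by
    rintro x ⟨N, hN⟩
    refine mem_iUnion.2 ⟨N, ?_⟩
    have h1 := sum_le_mx T f N x
    have h2 := mx_le_succ T f N x
    have h3 : ∑ k ∈ Finset.range N, f (T^[k] x) = ∑ k ∈ Finset.range N, φ (T^[k] x) - l * N := by
      simp [hfdef, Finset.sum_sub_distrib, mul_comm]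
    show 0 < mx T f (N + 1) x
    linarith
  have ht : Tendsto (fun N => μ.real (E N)) atTop (𝓝 (μ.real (⋃ N, E N))) :=
    (ENNReal.tendsto_toReal (measure_ne_top μ _)).comp (tendsto_measure_iUnion_atTop hmono)
  have h4 : l * μ.real (⋃ N, E N) ≤ ∫ x, φ x ∂μ :=
    le_of_tendsto' (ht.const_mul l) hb
  exact le_trans (mul_le_mul_of_nonneg_left (measureReal_mono hsub) hl) h4

/-- the plain average of a sequence -/
noncomputable def av {E : Type*} [NormedField E] (u : ℕ → E) (N : ℕ) : E :=
  (N : E)⁻¹ * ∑ k ∈ Finset.range N, u k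

lemma av_shift_sub {f : X → ℝ} {B : ℝ} (hB : ∀ x, |f x| ≤ B) (x : X) :
    Tendsto (fun N => av (fun k => f (T^[k] (T x))) N - av (fun k => f (T^[k] x)) N) atTop
      (𝓝 0) := by
  have h1 : ∀ N : ℕ, av (fun k => f (T^[k] (T x))) N - av (fun k => f (T^[k] x)) N
      = (N : ℝ)⁻¹ * (f (T^[N] x) - f x) := by
    intro N
    have := birkhoffSum_apply_sub_birkhoffSum T f N x
    simp only [birkhoffSum] at this
    simp only [av, ← mul_sub, this]
  simp only [h1]
  refine squeeze_zero_norm (a := fun N : ℕ => (N : ℝ)⁻¹ * (2 * B)) (fun N => ?_) ?_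
  · rw [norm_mul, Real.norm_eq_abs, Real.norm_eq_abs, abs_of_nonneg (by positivity)]
    refine mul_le_mul_of_nonneg_left ?_ (by positivity)
    have a1 := hB (T^[N] x)
    have a2 := hB x
    rw [abs_le] at a1 a2 ⊢
    constructor <;> linarith [a1.1, a1.2, a2.1, a2.2]
  · simpa using tendsto_inv_atTop_nhds_zero_nat.mul_const (2 * B)

/-- the set where the averages exceed `b` by a margin infinitely often -/
def up (T : X → X) (f : X → ℝ) (b : ℝ) : Set X :=
  {x | ∃ q : ℚ, b < q ∧ ∃ᶠ N in atTop, (q : ℝ) < av (fun k => f (T^[k] x)) N}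

lemma up_measurable (hT : Measurable T) {f : X → ℝ} (hf : Measurable f) (b : ℝ) :
    MeasurableSet (up T f b) := by
  have hm : ∀ N, Measurable fun x => av (fun k => f (T^[k] x)) N := fun N =>
    measurable_const.mul (Finset.measurable_sum _ fun k _ => hf.comp (hT.iterate k))
  have : up T f b = ⋃ q : ℚ, ({_x | b < q} ∩ ⋂ M : ℕ, ⋃ N : ℕ, ({_x | M ≤ N} ∩
      {x | (q : ℝ) < av (fun k => f (T^[k] x)) N})) := by
    ext x
    simp [up, frequently_atTop]
  rw [this]
  refine MeasurableSet.iUnion fun q => (MeasurableSet.const _).inter <|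
    MeasurableSet.iInter fun M => MeasurableSet.iUnion fun N => (MeasurableSet.const _).inter <|
      measurableSet_lt measurable_const (hm N)

lemma up_forward {f : X → ℝ} {B : ℝ} (hB : ∀ x, |f x| ≤ B) {b : ℝ} {x : X} (hx : x ∈ up T f b) :
    T x ∈ up T f b := by
  obtain ⟨q, hq, hfr⟩ := hx
  obtain ⟨r, h1, h2⟩ := exists_rat_btwn hq
  refine ⟨r, h1, ?_⟩
  have h3 := (av_shift_sub (T := T) hB x).eventually (lt_mem_nhds (show (r : ℝ) - q < 0 by linarith))
  exact (hfr.and_eventually h3).mono fun N hN => by linarith [hN.1, hN.2]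

lemma up_bound [IsFiniteMeasure μ] (hT : MeasurePreserving T μ μ) {f : X → ℝ} (hf : Measurable f)
    {B : ℝ} (hB : ∀ x, |f x| ≤ B) {b : ℝ} {D : Set X} (hD : MeasurableSet D)
    (hinv : ∀ x ∈ D, T x ∈ D) (hsub : D ⊆ up T f b) :
    b * μ.real D ≤ ∫ x in D, f x ∂μ := by
  have fi : Integrable f μ :=
    Integrable.of_bound hf.aestronglyMeasurable B (Eventually.of_forall hB)
  set C := |B| + |b| with hC
  have hC1 : ∀ x, 0 ≤ f x + C := fun x => by
    have := (abs_le.1 (hB x)).1
    have := le_abs_self B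
    have := abs_nonneg b
    linarith
  have hC2 : 0 ≤ b + C := by
    have := neg_abs_le b
    have := abs_nonneg B
    linarith
  set φ : X → ℝ := D.indicator fun x => f x + C with hφ
  have φm : Measurable φ := (hf.add measurable_const).indicator hD
  have φi : Integrable φ μ := (fi.add (integrable_const C)).indicator hD
  have φ0 : ∀ x, 0 ≤ φ x := fun x => indicator_nonneg (fun y _ => hC1 y) x
  have h1 := maximal hT φm φi φ0 hC2
  have hit : ∀ k, ∀ x ∈ D, T^[k] x ∈ D := by
    intro k
    induction k with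
    | zero => intro x hx; exact hx
    | succ k ih => intro x hx; rw [Function.iterate_succ_apply']; exact hinv _ (ih x hx)
  have h2 : D ⊆ {x | ∃ N : ℕ, (b + C) * N < ∑ k ∈ Finset.range N, φ (T^[k] x)} := by
    intro x hx
    obtain ⟨q, hq, hfr⟩ := hsub hx
    obtain ⟨N, hN1, hN2⟩ := (hfr.and_eventually (eventually_gt_atTop 0)).exists
    refine ⟨N, ?_⟩
    have e1 : ∑ k ∈ Finset.range N, φ (T^[k] x)
        = ∑ k ∈ Finset.range N, f (T^[k] x) + C * N := by
      rw [Finset.sum_congr rfl fun k _ => indicator_of_mem (hit k x hx) _]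
      simp [Finset.sum_add_distrib, mul_comm]
    have hNpos : (0 : ℝ) < N := by exact_mod_cast hN2
    have e2 : b * N < ∑ k ∈ Finset.range N, f (T^[k] x) := by
      have : b < (N : ℝ)⁻¹ * ∑ k ∈ Finset.range N, f (T^[k] x) := lt_trans hq hN1
      rwa [inv_mul_eq_div, lt_div_iff₀ hNpos] at this
    rw [e1]; linarith
  have h3 : (b + C) * μ.real D ≤ ∫ x, φ x ∂μ :=
    le_trans (mul_le_mul_of_nonneg_left (measureReal_mono h2) hC2) h1
  rw [hφ, integral_indicator hD, integral_add fi.integrableOn (integrable_const C)] at h3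
  simp only [integral_const, MeasurableSet.univ, measureReal_restrict_apply, univ_inter,
    smul_eq_mul] at h3
  linarith

lemma av_neg (u : ℕ → ℝ) (N : ℕ) : av (fun k => -u k) N = -av u N := by
  simp [av]

lemma abs_av_le {u : ℕ → ℝ} {B : ℝ} (hB : ∀ k, |u k| ≤ B) (N : ℕ) : |av u N| ≤ B := by
  have hB0 : 0 ≤ B := le_trans (abs_nonneg _) (hB 0)
  rcases Nat.eq_zero_or_pos N with rfl | hN
  · simpa [av] using hB0
  have hNpos : (0 : ℝ) < N := by exact_mod_cast hN
  have h1 : |∑ k ∈ Finset.range N, u k| ≤ N * B := by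
    refine le_trans (Finset.abs_sum_le_sum_abs _ _) ?_
    refine le_trans (Finset.sum_le_sum fun k _ => hB k) ?_
    simp
  rw [av, abs_mul, abs_of_pos (inv_pos.2 hNpos), inv_mul_le_iff₀ hNpos]
  exact h1

/-- Pointwise ergodic theorem for bounded real functions. -/
theorem birkhoff_real [IsFiniteMeasure μ] (hT : MeasurePreserving T μ μ) {f : X → ℝ}
    (hf : Measurable f) {B : ℝ} (hB : ∀ x, |f x| ≤ B) :
    ∀ᵐ x ∂μ, ∃ L, Tendsto (av fun k => f (T^[k] x)) atTop (𝓝 L) := by
  have hB' : ∀ x, |(-f x)| ≤ B := fun x => by rw [abs_neg]; exact hB x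
  have key : ∀ a b : ℚ, a < b →
      μ (up T f b ∩ up T (fun x => -f x) (-(a : ℝ))) = 0 := by
    intro a b hab
    set D := up T f b ∩ up T (fun x => -f x) (-(a : ℝ)) with hD
    have hDm : MeasurableSet D :=
      (up_measurable hT.measurable hf _).inter (up_measurable hT.measurable hf.neg _)
    have hinv : ∀ x ∈ D, T x ∈ D := fun x hx =>
      ⟨up_forward hB hx.1, up_forward (f := fun x => -f x) hB' hx.2⟩
    have h1 := up_bound hT hf hB hDm hinv inter_subset_left
    have h2 := up_bound (f := fun x => -f x) hT hf.neg hB' hDm hinv inter_subset_right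
    rw [integral_neg] at h2
    have h3 : ((b : ℝ) - a) * μ.real D ≤ 0 := by linarith
    have h4 : (0 : ℝ) < (b : ℝ) - a := by
      have : (a : ℝ) < b := by exact_mod_cast hab
      linarith
    have h5 : μ.real D ≤ 0 := by
      by_contra h
      have := mul_pos h4 (not_le.1 h)
      linarith
    have h6 : μ.real D = 0 := le_antisymm h5 measureReal_nonneg
    exact (measureReal_eq_zero_iff (measure_ne_top μ D)).1 h6
  have hall : ∀ᵐ x ∂μ, ∀ a b : ℚ, a < b →
      x ∉ up T f b ∩ up T (fun x => -f x) (-(a : ℝ)) := by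
    rw [ae_all_iff]; intro a
    rw [ae_all_iff]; intro b
    by_cases hab : a < b
    · filter_upwards [measure_eq_zero_iff_ae_notMem.1 (key a b hab)] with x hx _ using hx
    · exact Eventually.of_forall fun x h => absurd h hab
  filter_upwards [hall] with x hx
  have hbd := abs_av_le (u := fun k => f (T^[k] x)) fun k => hB _
  refine tendsto_of_no_upcrossings Rat.denseRange_cast ?_
    (isBoundedUnder_of ⟨B, fun N => (abs_le.1 (hbd N)).2⟩)
    (isBoundedUnder_of ⟨-B, fun N => (abs_le.1 (hbd N)).1⟩)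
  rintro _ ⟨a, rfl⟩ _ ⟨b, rfl⟩ hab ⟨h1, h2⟩
  obtain ⟨c, hc1, hc2⟩ := exists_rat_btwn hab
  obtain ⟨d, hd1, hd2⟩ := exists_rat_btwn hc2
  refine hx c d (by exact_mod_cast hd1) ⟨⟨b, hd2, h2⟩, ⟨-a, by push_cast; linarith, ?_⟩⟩
  refine h1.mono fun N hN => ?_
  rw [av_neg]
  push_cast
  linarith

/-- Pointwise ergodic theorem for bounded complex functions. -/
theorem birkhoff [IsFiniteMeasure μ] (hT : MeasurePreserving T μ μ) {f : X → ℂ}
    (hf : Measurable f) {B : ℝ} (hB : ∀ x, ‖f x‖ ≤ B) :
    ∀ᵐ x ∂μ, ∃ L, Tendsto (av fun k => f (T^[k] x)) atTop (𝓝 L) := by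
  have h1 := birkhoff_real hT (f := fun x => (f x).re) (Complex.measurable_re.comp hf)
    (B := B) fun x => le_trans (Complex.abs_re_le_norm _) (hB x)
  have h2 := birkhoff_real hT (f := fun x => (f x).im) (Complex.measurable_im.comp hf)
    (B := B) fun x => le_trans (Complex.abs_im_le_norm _) (hB x)
  filter_upwards [h1, h2] with x ⟨L1, hx1⟩ ⟨L2, hx2⟩
  refine ⟨(L1 : ℂ) + (L2 : ℂ) * Complex.I, ?_⟩
  have h3 := ((Complex.continuous_ofReal.tendsto _).comp hx1).add
    (((Complex.continuous_ofReal.tendsto _).comp hx2).mul_const Complex.I)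
  refine h3.congr fun N => ?_
  simp only [Function.comp_apply, av]
  push_cast
  rw [mul_assoc, ← mul_add, Finset.sum_mul, ← Finset.sum_add_distrib]
  simp only [Complex.re_add_im]

end Pool.Agent.Lib.MP_cc859a_an
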