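import Pool.Agent.Lib.MP_cc859a_an.Station

set_option autoImplicit false

/-!
Weighted averages: the functions for which they converge almost everywhere form a subspace closed in the
mean; such a subspace that contains the characters of a family of real functions contains every bounded
function measurable for the sigma-algebra that the family generates.
-/

namespace Pool.Agent.Lib.MP_cc859a_an

open MeasureTheory Filter Topology Set

variable {X : Type*} [MeasurableSpace X] {μ : Measure X}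

/-- almost everywhere convergence of weighted averages -/
def Conv (μ : Measure X) (S : X → X) (w : ℕ → X → ℂ) (g : X → ℂ) : Prop :=
  ∀ᵐ x ∂μ, ∃ L, Tendsto (av fun n => g (S^[n] x) * w n x) atTop (𝓝 L)

variable {S : X → X} {w : ℕ → X → ℂ}

lemma Conv.zero : Conv μ S w 0 :=
  Eventually.of_forall fun x => ⟨0, tendsto_const_nhds.congr fun N => by simp [av]⟩

lemma Conv.add {g h : X → ℂ} (hg : Conv μ S w g) (hh : Conv μ S w h) : Conv μ S w (g + h) := by
  filter_upwards [hg, hh] with x ⟨L, hL⟩ ⟨M, hM⟩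
  refine ⟨L + M, (hL.add hM).congr fun N => ?_⟩
  simp [av, add_mul, Finset.sum_add_distrib, mul_add]

lemma Conv.smul {g : X → ℂ} (c : ℂ) (hg : Conv μ S w g) : Conv μ S w (c • g) := by
  filter_upwards [hg] with x ⟨L, hL⟩
  refine ⟨c * L, (hL.const_mul c).congr fun N => ?_⟩
  simp only [av, Pi.smul_apply, smul_eq_mul, mul_assoc, ← Finset.mul_sum]
  ring

lemma ae_iterate (hS : MeasurePreserving S μ μ) {p : X → Prop} (h : ∀ᵐ x ∂μ, p x) :
    ∀ᵐ x ∂μ, ∀ n, p (S^[n] x) := by
  rw [ae_all_iff]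
  intro n
  exact (hS.iterate n).quasiMeasurePreserving.ae h

lemma Conv.congr (hS : MeasurePreserving S μ μ) {g h : X → ℂ} (hg : Conv μ S w g)
    (e : g =ᵐ[μ] h) : Conv μ S w h := by
  filter_upwards [hg, ae_iterate hS e] with x ⟨L, hL⟩ hx
  refine ⟨L, ?_⟩
  simpa only [hx] using hL

lemma Conv.closed [IsFiniteMeasure μ] (hS : MeasurePreserving S μ μ) {B : ℝ}
    (hw : ∀ n x, ‖w n x‖ ≤ B) {g : X → ℂ}
    (h : ∀ ε > 0, ∃ g', Conv μ S w g' ∧ Measurable (g - g') ∧ Integrable (g - g') μ ∧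
      ∫ x, ‖(g - g') x‖ ∂μ ≤ ε) : Conv μ S w g := by
  have key : ∀ δ : ℝ, 0 < δ → μ {x | ¬ ∃ N₀, ∀ N ≥ N₀, ∀ M ≥ N₀,
      dist (av (fun n => g (S^[n] x) * w n x) N) (av (fun n => g (S^[n] x) * w n x) M) < 3 * δ}
      = 0 := by
    intro δ hδ
    set Bad := {x | ¬ ∃ N₀, ∀ N ≥ N₀, ∀ M ≥ N₀,
      dist (av (fun n => g (S^[n] x) * w n x) N) (av (fun n => g (S^[n] x) * w n x) M) < 3 * δ}
      with hBad
    set l := δ / (|B| + 1) with hl
    have hB1 : 0 < |B| + 1 := by positivity
    have lpos : 0 < l := div_pos hδ hB1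
    have hb : ∀ ε > 0, l * μ.real Bad ≤ ε := by
      intro ε hε
      obtain ⟨g', c1, m1, i1, e1⟩ := h ε hε
      have h1 := maximal hS (φ := fun x => ‖(g - g') x‖) m1.norm i1.norm
        (fun x => norm_nonneg _) lpos.le
      have h2 : Bad ≤ᵐ[μ] {x | ∃ N : ℕ, l * N < ∑ k ∈ Finset.range N, ‖(g - g') (S^[k] x)‖} := by
        filter_upwards [c1] with x ⟨L, hL⟩ hx
        by_contra hc
        apply hx
        have hc' : ∀ N : ℕ, ∑ k ∈ Finset.range N, ‖(g - g') (S^[k] x)‖ ≤ l * N := by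
          intro N
          by_contra hN
          exact hc ⟨N, not_le.1 hN⟩
        have d1 : ∀ N, dist (av (fun n => g (S^[n] x) * w n x) N)
            (av (fun n => g' (S^[n] x) * w n x) N) ≤ δ := by
          intro N
          rcases Nat.eq_zero_or_pos N with rfl | hN
          · simpa [av] using hδ.le
          have hNpos : (0 : ℝ) < N := by exact_mod_cast hN
          rw [dist_eq_norm, av, av, ← mul_sub, ← Finset.sum_sub_distrib, norm_mul, norm_inv,
            Complex.norm_natCast, inv_mul_le_iff₀ hNpos]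
          refine le_trans (norm_sum_le _ _) ?_
          have d2 : ∀ k ∈ Finset.range N, ‖g (S^[k] x) * w k x - g' (S^[k] x) * w k x‖
              ≤ ‖(g - g') (S^[k] x)‖ * (|B| + 1) := by
            intro k _
            rw [← sub_mul, norm_mul]
            refine mul_le_mul_of_nonneg_left ?_ (norm_nonneg _)
            linarith [hw k x, le_abs_self B]
          refine le_trans (Finset.sum_le_sum d2) ?_
          rw [← Finset.sum_mul]
          refine le_trans (mul_le_mul_of_nonneg_right (hc' N) hB1.le) (le_of_eq ?_)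
          rw [hl]; field_simp
        obtain ⟨N₀, hN₀⟩ := Metric.cauchySeq_iff.1 hL.cauchySeq δ hδ
        refine ⟨N₀, fun N hN M hM => ?_⟩
        have t1 := dist_triangle4 (av (fun n => g (S^[n] x) * w n x) N)
          (av (fun n => g' (S^[n] x) * w n x) N) (av (fun n => g' (S^[n] x) * w n x) M)
          (av (fun n => g (S^[n] x) * w n x) M)
        have t2 := d1 M
        rw [dist_comm] at t2
        linarith [d1 N, hN₀ N hN M hM]
      have h3 : μ.real Bad ≤ μ.real {x | ∃ N : ℕ, l * N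
          < ∑ k ∈ Finset.range N, ‖(g - g') (S^[k] x)‖} :=
        ENNReal.toReal_mono (measure_ne_top _ _) (measure_mono_ae h2)
      exact le_trans (mul_le_mul_of_nonneg_left h3 lpos.le) (le_trans h1 e1)
    have h4 : l * μ.real Bad ≤ 0 := le_of_forall_pos_le_add fun ε hε => by simpa using hb ε hε
    have h5 : μ.real Bad ≤ 0 := by
      by_contra hc
      have := mul_pos lpos (not_le.1 hc)
      linarith
    exact (measureReal_eq_zero_iff (measure_ne_top μ Bad)).1 (le_antisymm h5 measureReal_nonneg)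
  have hall : ∀ᵐ x ∂μ, ∀ m : ℕ, ∃ N₀, ∀ N ≥ N₀, ∀ M ≥ N₀,
      dist (av (fun n => g (S^[n] x) * w n x) N) (av (fun n => g (S^[n] x) * w n x) M)
        < 3 * (1 / ((m : ℝ) + 1)) := by
    rw [ae_all_iff]
    intro m
    exact key _ (by positivity)
  filter_upwards [hall] with x hx
  refine cauchySeq_tendsto_of_complete (Metric.cauchySeq_iff.2 fun ε hε => ?_)
  obtain ⟨m, hm⟩ := exists_nat_one_div_lt (show 0 < ε / 3 by positivity)
  obtain ⟨N₀, hN₀⟩ := hx m
  exact ⟨N₀, fun N hN M hM => by linarith [hN₀ N hN M hM]⟩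

lemma integral_density {ψ : X → ℝ} (hm : Measurable ψ) (h : X → ℂ) :
    ∫ x, h x ∂(μ.withDensity fun x => ENNReal.ofReal (ψ x)) = ∫ x, ((max (ψ x) 0 : ℝ) : ℂ) * h x ∂μ := by
  rw [integral_withDensity_eq_integral_toReal_smul hm.ennreal_ofReal
    (Eventually.of_forall fun x => ENNReal.ofReal_lt_top)]
  simp only [ENNReal.toReal_ofReal', Complex.real_smul]

lemma integral_density_sub {ψ : X → ℝ} (hm : Measurable ψ) (hi : Integrable ψ μ) {h : X → ℂ}
    (hh : AEStronglyMeasurable h μ) {B : ℝ} (hB : ∀ x, ‖h x‖ ≤ B) :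
    ∫ x, h x ∂(μ.withDensity fun x => ENNReal.ofReal (ψ x))
      - ∫ x, h x ∂(μ.withDensity fun x => ENNReal.ofReal (-ψ x)) = ∫ x, (ψ x : ℂ) * h x ∂μ := by
  rw [integral_density hm, integral_density (ψ := fun x => -ψ x) hm.neg]
  have i1 : Integrable (fun x => ((max (ψ x) 0 : ℝ) : ℂ) * h x) μ :=
    (hi.sup (integrable_zero X ℝ μ)).ofReal.mul_bdd hh (Eventually.of_forall hB)
  have i2 : Integrable (fun x => ((max (-ψ x) 0 : ℝ) : ℂ) * h x) μ :=
    (hi.neg.sup (integrable_zero X ℝ μ)).ofReal.mul_bdd hh (Eventually.of_forall hB)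
  rw [← integral_sub i1 i2]
  congr 1
  funext x
  rw [← sub_mul, ← Complex.ofReal_sub, max_zero_sub_max_neg_zero_eq_self]

variable {ι : Type*} {ξ : ι → X → ℝ}

lemma orth_real (hξ : ∀ i, Measurable (ξ i)) {ψ : X → ℝ} (hm : Measurable ψ)
    (hi : Integrable ψ μ)
    (h : ∀ (I : Finset ι) (c : ι → ℝ), ∫ x, (ψ x : ℂ) * ex (∑ p ∈ I, c p * ξ p x) ∂μ = 0)
    {g : X → ℂ} (hg : StronglyMeasurable[⨆ i, MeasurableSpace.comap (ξ i) inferInstance] g)
    {B : ℝ} (hB : ∀ x, ‖g x‖ ≤ B) : ∫ x, (ψ x : ℂ) * g x ∂μ = 0 := by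
  set Φ : X → ι → ℝ := fun x i => ξ i x with hΦ
  have Φm : Measurable Φ := measurable_pi_lambda _ hξ
  rw [← MeasurableSpace.comap_process_pi] at hg
  obtain ⟨G, Gm, rfl⟩ := hg.exists_eq_measurable_comp
  set ρ₁ := μ.withDensity fun x => ENNReal.ofReal (ψ x) with hρ₁
  set ρ₂ := μ.withDensity fun x => ENNReal.ofReal (-ψ x) with hρ₂
  have : IsFiniteMeasure ρ₁ := isFiniteMeasure_withDensity_ofReal hi.2
  have : IsFiniteMeasure ρ₂ := isFiniteMeasure_withDensity_ofReal hi.neg.2
  have mm : ∀ (I : Finset ι) (t : ι → ℝ), Measurable fun y : ι → ℝ => ex (∑ n ∈ I, t n * y n) :=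
    fun I t => measurable_ex.comp
      (Finset.measurable_sum _ fun n _ => measurable_const.mul (measurable_pi_apply n))
  have e : ρ₁.map Φ = ρ₂.map Φ := by
    refine ext_pi _ _ fun I c => ?_
    rw [integral_map Φm.aemeasurable (mm I c).aestronglyMeasurable,
      integral_map Φm.aemeasurable (mm I c).aestronglyMeasurable, ← sub_eq_zero]
    exact (integral_density_sub hm hi ((mm I c).comp Φm).aestronglyMeasurable (B := 1)
      fun x => (norm_ex _).le).trans (h I c)
  rw [← integral_density_sub hm hi (Gm.measurable.comp Φm).aestronglyMeasurable hB, sub_eq_zero]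
  have a1 := integral_map (μ := ρ₁) Φm.aemeasurable Gm.aestronglyMeasurable
  have a2 := integral_map (μ := ρ₂) Φm.aemeasurable Gm.aestronglyMeasurable
  rw [e, a2] at a1
  exact a1.symm

lemma orth_complex (hξ : ∀ i, Measurable (ξ i)) {ψ : X → ℂ} (hm : Measurable ψ)
    (hi : Integrable ψ μ)
    (h : ∀ (I : Finset ι) (c : ι → ℝ), ∫ x, ψ x * ex (∑ p ∈ I, c p * ξ p x) ∂μ = 0)
    {g : X → ℂ} (hg : StronglyMeasurable[⨆ i, MeasurableSpace.comap (ξ i) inferInstance] g)
    {B : ℝ} (hB : ∀ x, ‖g x‖ ≤ B) : ∫ x, ψ x * g x ∂μ = 0 := by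
  have hle : (⨆ i, MeasurableSpace.comap (ξ i) inferInstance) ≤ ‹MeasurableSpace X› :=
    iSup_le fun i => (hξ i).comap_le
  have gm : AEStronglyMeasurable g μ := (hg.mono hle).aestronglyMeasurable
  have em : ∀ (I : Finset ι) (c : ι → ℝ), Measurable fun x => ex (∑ p ∈ I, c p * ξ p x) :=
    fun I c => measurable_ex.comp
      (Finset.measurable_sum _ fun p _ => measurable_const.mul (hξ p))
  have h' : ∀ (I : Finset ι) (c : ι → ℝ),
      ∫ x, (starRingEnd ℂ) (ψ x) * ex (∑ p ∈ I, c p * ξ p x) ∂μ = 0 := by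
    intro I c
    have a := congrArg (starRingEnd ℂ) (h I fun p => -c p)
    rw [← integral_conj, map_zero] at a
    rw [← a]
    congr 1
    funext x
    rw [map_mul, ← conj_ex_neg (∑ p ∈ I, c p * ξ p x)]
    simp
  have i1 : ∀ (I : Finset ι) (c : ι → ℝ),
      Integrable (fun x => ψ x * ex (∑ p ∈ I, c p * ξ p x)) μ := fun I c =>
    hi.mul_bdd (em I c).aestronglyMeasurable (Eventually.of_forall fun x => (norm_ex _).le)
  have hic : Integrable (fun x => (starRingEnd ℂ) (ψ x)) μ :=
    (Complex.conjCLE : ℂ →L[ℝ] ℂ).integrable_comp hi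
  have i2 : ∀ (I : Finset ι) (c : ι → ℝ),
      Integrable (fun x => (starRingEnd ℂ) (ψ x) * ex (∑ p ∈ I, c p * ξ p x)) μ := fun I c =>
    hic.mul_bdd (em I c).aestronglyMeasurable (Eventually.of_forall fun x => (norm_ex _).le)
  have r1 := orth_real hξ (ψ := fun x => (ψ x).re) (Complex.measurable_re.comp hm) hi.re
    (fun I c => by
      have a : ∫ x, (ψ x * ex (∑ p ∈ I, c p * ξ p x)
          + (starRingEnd ℂ) (ψ x) * ex (∑ p ∈ I, c p * ξ p x)) * (1 / 2) ∂μ = 0 := by
        rw [integral_mul_const, integral_add (i1 I c) (i2 I c), h, h']; simp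
      rw [← a]
      congr 1
      funext x
      rw [← add_mul, Complex.add_conj]
      push_cast
      ring) hg hB
  have r2 := orth_real hξ (ψ := fun x => (ψ x).im) (Complex.measurable_im.comp hm) hi.im
    (fun I c => by
      have a : ∫ x, (ψ x * ex (∑ p ∈ I, c p * ξ p x)
          - (starRingEnd ℂ) (ψ x) * ex (∑ p ∈ I, c p * ξ p x)) * (-Complex.I / 2) ∂μ = 0 := by
        rw [integral_mul_const, integral_sub (i1 I c) (i2 I c), h, h']; simp
      rw [← a]
      congr 1
      funext x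
      rw [← sub_mul, Complex.sub_conj]
      push_cast
      linear_combination ((ψ x).im * ex (∑ p ∈ I, c p * ξ p x)) * Complex.I_mul_I) hg hB
  have j1 : Integrable (fun x => (((ψ x).re : ℝ) : ℂ) * g x) μ :=
    hi.re.ofReal.mul_bdd gm (Eventually.of_forall hB)
  have j2 : Integrable (fun x => (((ψ x).im : ℝ) : ℂ) * g x * Complex.I) μ :=
    (hi.im.ofReal.mul_bdd gm (Eventually.of_forall hB)).mul_const _
  have a : ∫ x, ((((ψ x).re : ℝ) : ℂ) * g x + (((ψ x).im : ℝ) : ℂ) * g x * Complex.I) ∂μ = 0 := by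
    rw [integral_add j1 j2, integral_mul_const, r1, r2]; simp
  rw [← a]
  congr 1
  funext x
  linear_combination (-g x) * Complex.re_add_im (ψ x)

/-- from the characters to all bounded measurable functions -/
theorem Conv.dense [IsProbabilityMeasure μ] (hS : MeasurePreserving S μ μ) {B : ℝ}
    (hw : ∀ n x, ‖w n x‖ ≤ B) (hξ : ∀ i, Measurable (ξ i))
    (h : ∀ (I : Finset ι) (c : ι → ℝ), Conv μ S w fun x => ex (∑ p ∈ I, c p * ξ p x))
    {g : X → ℂ} (hg : StronglyMeasurable[⨆ i, MeasurableSpace.comap (ξ i) inferInstance] g)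
    {B' : ℝ} (hB : ∀ x, ‖g x‖ ≤ B') : Conv μ S w g := by
  have hle : (⨆ i, MeasurableSpace.comap (ξ i) inferInstance) ≤ ‹MeasurableSpace X› :=
    iSup_le fun i => (hξ i).comap_le
  have gm : AEStronglyMeasurable g μ := (hg.mono hle).aestronglyMeasurable
  let K : Submodule ℂ (Lp ℂ 2 μ) :=
    { carrier := {k | Conv μ S w k}
      zero_mem' := Conv.zero.congr hS (Lp.coeFn_zero ℂ 2 μ).symm
      add_mem' := fun {a b} ha hb => (Conv.add ha hb).congr hS (Lp.coeFn_add a b).symm
      smul_mem' := fun c a ha => (Conv.smul c ha).congr hS (Lp.coeFn_smul c a).symm }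
  have Kc : IsClosed (K : Set (Lp ℂ 2 μ)) := by
    refine isClosed_of_closure_subset fun k hk => ?_
    refine Conv.closed hS hw fun ε hε => ?_
    obtain ⟨k', hk', hd⟩ := Metric.mem_closure_iff.1 hk ε hε
    have m2 : MemLp ((k : X → ℂ) - (k' : X → ℂ)) 2 μ := (Lp.memLp k).sub (Lp.memLp k')
    refine ⟨k', hk', (Lp.stronglyMeasurable k).measurable.sub (Lp.stronglyMeasurable k').measurable,
      m2.integrable one_le_two, ?_⟩
    rw [Lp.dist_def] at hd
    rw [integral_norm_eq_lintegral_enorm m2.1, ← eLpNorm_one_eq_lintegral_enorm]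
    exact le_trans (ENNReal.toReal_mono m2.2.ne
      (eLpNorm_le_eLpNorm_of_exponent_le one_le_two m2.1)) hd.le
  have : CompleteSpace K := Kc.completeSpace_coe
  have g2 : MemLp g 2 μ := MemLp.of_bound gm B' (Eventually.of_forall hB)
  have hmem : g2.toLp g ∈ K := by
    rw [← K.orthogonal_orthogonal, Submodule.mem_orthogonal]
    intro φ hφ
    rw [Submodule.mem_orthogonal'] at hφ
    have φi : Integrable (fun x => (starRingEnd ℂ) (φ x)) μ :=
      (Complex.conjCLE : ℂ →L[ℝ] ℂ).integrable_comp ((Lp.memLp φ).integrable one_le_two)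
    have φm : Measurable fun x => (starRingEnd ℂ) (φ x) :=
      Complex.continuous_conj.measurable.comp (Lp.stronglyMeasurable φ).measurable
    have inn : ∀ (u : X → ℂ) (hu : MemLp u 2 μ),
        inner ℂ φ (hu.toLp u) = ∫ x, (starRingEnd ℂ) (φ x) * u x ∂μ := by
      intro u hu
      rw [L2.inner_def]
      refine integral_congr_ae ?_
      filter_upwards [hu.coeFn_toLp] with x hx
      rw [hx, RCLike.inner_apply, mul_comm]
    rw [inn]
    refine orth_complex hξ φm φi (fun I c => ?_) hg hB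
    have em : Measurable fun x => ex (∑ p ∈ I, c p * ξ p x) := measurable_ex.comp
      (Finset.measurable_sum _ fun p _ => measurable_const.mul (hξ p))
    have e2 : MemLp (fun x => ex (∑ p ∈ I, c p * ξ p x)) 2 μ :=
      MemLp.of_bound em.aestronglyMeasurable 1 (Eventually.of_forall fun x => (norm_ex _).le)
    rw [← inn _ e2]
    exact hφ _ ((h I c).congr hS e2.coeFn_toLp.symm)
  exact Conv.congr hS hmem g2.coeFn_toLp

end Pool.Agent.Lib.MP_cc859a_an
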