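import Pool.Agent.Lib.MP_cc859a_an.Dense

set_option autoImplicit false

/-!
The Gaussian computation: multiple averages of characters of a Gaussian space converge almost everywhere.
-/

namespace Pool.Agent.Lib.MP_cc859a_an

open MeasureTheory ProbabilityTheory Filter Topology Set

section algebra

variable {M : Type*} [AddCommGroup M] [Module ℝ M] {B : M →ₗ[ℝ] M →ₗ[ℝ] ℝ} {m : M →ₗ[ℝ] ℝ}

/-- maps that keep the covariance and the mean -/
def Iso (B : M →ₗ[ℝ] M →ₗ[ℝ] ℝ) (m : M →ₗ[ℝ] ℝ) (U : M →ₗ[ℝ] M) : Prop :=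
  (∀ x y, B (U x) (U y) = B x y) ∧ ∀ x, m (U x) = m x

lemma Iso.pow {U : M →ₗ[ℝ] M} (h : Iso B m U) (n : ℕ) : Iso B m (U ^ n) := by
  induction n with
  | zero => exact ⟨fun x y => rfl, fun x => rfl⟩
  | succ n ih =>
    refine ⟨fun x y => ?_, fun x => ?_⟩
    · rw [pow_succ', Module.End.mul_apply, Module.End.mul_apply, h.1, ih.1]
    · rw [pow_succ', Module.End.mul_apply, h.2, ih.2]

/-- logarithm of the Gaussian characteristic function -/
noncomputable def psi (B : M →ₗ[ℝ] M →ₗ[ℝ] ℝ) (m : M →ₗ[ℝ] ℝ) (x : M) : ℂ :=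
  (m x : ℂ) * Complex.I - (B x x : ℂ) / 2

lemma Iso.psi {U : M →ₗ[ℝ] M} (h : Iso B m U) (x : M) : psi B m (U x) = psi B m x := by
  simp only [MP_cc859a_an.psi, h.1, h.2]

lemma sum_psi {κ : Type*} (s : Finset κ) (x : κ → M) :
    ∑ c ∈ s, psi B m (x c)
      = ((∑ c ∈ s, m (x c) : ℝ) : ℂ) * Complex.I - ((∑ c ∈ s, B (x c) (x c) : ℝ) : ℂ) / 2 := by
  simp only [psi, Finset.sum_sub_distrib, Complex.ofReal_sum, Finset.sum_mul, Finset.sum_div]

variable {J : Type*} [Fintype J]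

lemma polar (hB : ∀ x y, B x y = B y x) {s : ℝ} (hs : 2 * (s * s) = 1) (A : J → M) :
    B (∑ j, A j) (∑ j, A j) + ∑ p : J × J, B (s • (A p.1 - A p.2)) (s • (A p.1 - A p.2))
      = Fintype.card J * ∑ j, B (A j) (A j) := by
  have e : ∀ p : J × J, B (s • (A p.1 - A p.2)) (s • (A p.1 - A p.2))
      = (1 / 2) * B (A p.1) (A p.1) + (1 / 2) * B (A p.2) (A p.2) - B (A p.1) (A p.2) := by
    intro p
    simp only [map_smul, map_sub, LinearMap.smul_apply, LinearMap.sub_apply, smul_eq_mul]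
    rw [hB (A p.2) (A p.1)]
    linear_combination
      ((1 / 2) * B (A p.1) (A p.1) + (1 / 2) * B (A p.2) (A p.2) - B (A p.1) (A p.2)) * hs
  simp only [e, Fintype.sum_prod_type, Finset.sum_sub_distrib, Finset.sum_add_distrib,
    map_sum, LinearMap.sum_apply, Finset.sum_const, Finset.card_univ, nsmul_eq_mul,
    ← Finset.mul_sum]
  rw [Finset.sum_comm]
  ring

lemma psi_pairs (hB : ∀ x y, B x y = B y x) {s : ℝ} (hs : 2 * (s * s) = 1) {A A' : J → M}
    (h1 : ∀ j, B (A' j) (A' j) = B (A j) (A j)) (h2 : ∀ j, m (A' j) = m (A j)) :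
    psi B m (∑ j, A j) + ∑ p : J × J, psi B m (s • (A p.1 - A p.2))
      = psi B m (∑ j, A' j) + ∑ p : J × J, psi B m (s • (A' p.1 - A' p.2)) := by
  have a := polar hB hs A
  have a' := polar hB hs A'
  simp only [h1] at a'
  rw [← a] at a'
  have a'' := congrArg (fun r : ℝ => (r : ℂ)) a'
  simp only [Complex.ofReal_add] at a''
  have b : ∀ p : J × J, m (s • (A' p.1 - A' p.2)) = m (s • (A p.1 - A p.2)) := by
    intro p; simp only [map_smul, map_sub, h2]
  have b' : m (∑ j, A' j) = m (∑ j, A j) := by simp only [map_sum, h2]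
  rw [sum_psi, sum_psi]
  simp only [psi, b, b']
  linear_combination (1 / 2 : ℂ) * a''

lemma psi_cancel (hB : ∀ x y, B x y = B y x) (s : ℝ) {a b c d a' b' c' d' : M}
    (ha : B a a = B a' a') (hb : B b b = B b' b') (hc : B c c = B c' c') (hd : B d d = B d' d')
    (ma : m a = m a') (mb : m b = m b') (mc : m c = m c') (md : m d = m d')
    (h : B a b = B c d) (h' : B a' b' = B c' d') :
    psi B m (s • (a - b)) + psi B m (s • c + s • d)
      = psi B m (s • (a' - b')) + psi B m (s • c' + s • d') := by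
  simp only [psi, map_smul, map_sub, map_add, LinearMap.smul_apply, LinearMap.sub_apply,
    LinearMap.add_apply, smul_eq_mul]
  rw [hB b a, hB d c, hB b' a', hB d' c', ha, hb, hc, hd, ma, mb, mc, md, h, h']
  push_cast
  ring

end algebra

variable {X : Type*} [MeasurableSpace X] {μ : Measure X} {L : Submodule ℝ (X → ℝ)}

/-- covariance on a Gaussian space -/
noncomputable def covL (μ : Measure X) [IsProbabilityMeasure μ] (L : Submodule ℝ (X → ℝ))
    (hL : ∀ Z ∈ L, HasGaussianLaw Z μ) : L →ₗ[ℝ] L →ₗ[ℝ] ℝ :=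
  LinearMap.mk₂ ℝ (fun Z W => cov[(Z : X → ℝ), (W : X → ℝ); μ])
    (fun Z Z' W => covariance_add_left (hL _ Z.2).memLp_two (hL _ Z'.2).memLp_two
      (hL _ W.2).memLp_two)
    (fun c _ _ => covariance_smul_left c)
    (fun Z W W' => covariance_add_right (hL _ Z.2).memLp_two (hL _ W.2).memLp_two
      (hL _ W'.2).memLp_two)
    (fun c _ _ => covariance_smul_right c)

/-- mean on a Gaussian space -/
noncomputable def meanL (μ : Measure X) (L : Submodule ℝ (X → ℝ))
    (hL : ∀ Z ∈ L, HasGaussianLaw Z μ) : L →ₗ[ℝ] ℝ where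
  toFun Z := ∫ x, (Z : X → ℝ) x ∂μ
  map_add' Z W := integral_add (hL _ Z.2).integrable (hL _ W.2).integrable
  map_smul' c Z := integral_smul c (Z : X → ℝ)

/-- composition with a map that keeps the space -/
def cmp (L : Submodule ℝ (X → ℝ)) (S : X → X) (hS : ∀ Z ∈ L, Z ∘ S ∈ L) : L →ₗ[ℝ] L where
  toFun Z := ⟨(Z : X → ℝ) ∘ S, hS _ Z.2⟩
  map_add' _ _ := rfl
  map_smul' _ _ := rfl

omit [MeasurableSpace X] in
lemma cmp_pow (S : X → X) (hS : ∀ Z ∈ L, Z ∘ S ∈ L) (n : ℕ) :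
    ∀ Z : L, (((cmp L S hS ^ n) Z : L) : X → ℝ) = (Z : X → ℝ) ∘ S^[n] := by
  induction n with
  | zero => intro Z; rfl
  | succ n ih =>
    intro Z
    rw [pow_succ', Module.End.mul_apply]
    show (((cmp L S hS ^ n) Z : L) : X → ℝ) ∘ S = _
    rw [ih]; rfl

lemma cov_comp {S : X → X} (hS : MeasurePreserving S μ μ) {Z W : X → ℝ}
    (hZ : AEStronglyMeasurable Z μ) (hW : AEStronglyMeasurable W μ) :
    cov[Z ∘ S, W ∘ S; μ] = cov[Z, W; μ] := by
  have := covariance_map (μ := μ) (X := Z) (Y := W) (Z := S) (by rwa [hS.map_eq])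
    (by rwa [hS.map_eq]) hS.measurable.aemeasurable
  rw [hS.map_eq] at this
  exact this.symm

lemma iso_cmp [IsProbabilityMeasure μ] (hL : ∀ Z ∈ L, HasGaussianLaw Z μ) {S : X → X}
    (hS : MeasurePreserving S μ μ) (hc : ∀ Z ∈ L, Z ∘ S ∈ L) :
    Iso (covL μ L hL) (meanL μ L hL) (cmp L S hc) :=
  ⟨fun Z W => cov_comp hS (hL _ Z.2).integrable.1 (hL _ W.2).integrable.1,
    fun Z => integral_comp_mp hS (hL _ Z.2).integrable.1⟩

lemma chi_eq [IsProbabilityMeasure μ] (hL : ∀ Z ∈ L, HasGaussianLaw Z μ) (Z : L) :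
    chi μ Z = Complex.exp (psi (covL μ L hL) (meanL μ L hL) Z) := by
  have h := hL _ Z.2
  have h1 := h.charFun_map_eq 1
  rw [charFun_apply_real, integral_map h.aemeasurable (by fun_prop)] at h1
  simp only [RCLike.inner_apply, conj_trivial, mul_one, Complex.ofReal_one, one_mul] at h1
  have h2 : covL μ L hL Z Z = Var[(Z : X → ℝ); μ] := covariance_self h.aemeasurable
  rw [psi, h2]
  exact h1

theorem gauss_conv [IsProbabilityMeasure μ] (hL : ∀ Z ∈ L, HasGaussianLaw Z μ)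
    (hm : ∀ Z ∈ L, Measurable Z) {J : Type*} [Fintype J] {T : J → X → X}
    (hT : ∀ j, MeasurePreserving (T j) μ μ) (hc : ∀ j, ∀ Z ∈ L, Z ∘ T j ∈ L)
    (hp : ∀ i j, ∃ R, MeasurePreserving R μ μ ∧ (∀ Z ∈ L, Z ∘ R ∈ L) ∧
      ((∀ n, (T j)^[n] = R^[n] ∘ (T i)^[n]) ∨ ∀ n, (T i)^[n] = R^[n] ∘ (T j)^[n]))
    (Z : J → L) :
    ∀ᵐ x ∂μ, ∃ l, Tendsto (av fun n => ∏ j, ex ((Z j : X → ℝ) ((T j)^[n] x))) atTop (𝓝 l) := by
  set B := covL μ L hL with hBdef
  set m := meanL μ L hL with hmdef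
  have hB : ∀ x y, B x y = B y x := fun x y => covariance_comm _ _
  set U : J → L →ₗ[ℝ] L := fun j => cmp L (T j) (hc j) with hU
  have hUi : ∀ j, Iso B m (U j) := fun j => iso_cmp hL (hT j) (hc j)
  have hpq : ∀ p : J × J, ∃ (W : L →ₗ[ℝ] L) (c d : L), Iso B m W ∧
      ∀ n, B ((U p.1 ^ n) (Z p.1)) ((U p.2 ^ n) (Z p.2)) = B ((W ^ n) c) d := by
    rintro ⟨i, j⟩
    obtain ⟨R, r1, r2, r3⟩ := hp i j
    have aux : ∀ i j, (∀ n, (T j)^[n] = R^[n] ∘ (T i)^[n]) → ∀ n,
        B ((U j ^ n) (Z j)) ((U i ^ n) (Z i)) = B ((cmp L R r2 ^ n) (Z j)) (Z i) := by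
      intro i j h n
      rw [← ((hUi i).pow n).1 ((cmp L R r2 ^ n) (Z j)) (Z i)]
      congr 2
      apply Subtype.ext
      rw [hU, cmp_pow, cmp_pow, cmp_pow, h]
      rfl
    rcases r3 with h | h
    · exact ⟨cmp L R r2, Z j, Z i, iso_cmp hL r1 r2, fun n => by rw [hB]; exact aux i j h n⟩
    · exact ⟨cmp L R r2, Z i, Z j, iso_cmp hL r1 r2, fun n => aux j i h n⟩
  choose W c d hW hcd using hpq
  set s : ℝ := (Real.sqrt 2)⁻¹ with hsdef
  have hs : 2 * (s * s) = 1 := by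
    rw [hsdef, ← mul_inv, Real.mul_self_sqrt (by norm_num)]; norm_num
  set V : ℕ → L := fun n => ∑ j, (U j ^ n) (Z j) with hV
  set Rr : (J × J) ⊕ (J × J) → ℕ → L := fun k n => Sum.elim
    (fun p : J × J => s • ((U p.1 ^ n) (Z p.1) - (U p.2 ^ n) (Z p.2)))
    (fun p : J × J => s • (W p ^ n) (c p)) k with hRr
  set Qf : (J × J) ⊕ (J × J) → L := Sum.elim (fun _ => 0) (fun p => s • d p) with hQf
  have lin : ∀ (I : Finset ℕ) (t : ℕ → ℝ) (Y : ℕ → L),
      chi μ (fun x => ∑ n ∈ I, t n * (Y n : X → ℝ) x)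
        = Complex.exp (psi B m (∑ n ∈ I, t n • Y n)) := by
    intro I t Y
    rw [← chi_eq hL]
    congr 1
    funext x
    simp [Finset.sum_apply]
  have add : ∀ Y Y' : L, chi μ (fun x => (Y : X → ℝ) x + (Y' : X → ℝ) x)
      = Complex.exp (psi B m (Y + Y')) := by
    intro Y Y'
    rw [← chi_eq hL]
    rfl
  have main := station (μ := μ) (V := fun n => V n) (R := fun k n => Rr k n) (Q := fun k => Qf k)
    (fun n => hm _ (V n).2) (fun k n => hm _ (Rr k n).2) (fun k => hm _ (Qf k).2)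
    (fun I t => by
      rw [lin I t V, lin I t fun n => V (n + 1)]
      simp only [lin I t (Rr _), lin I t fun n => Rr _ (n + 1)]
      rw [← Complex.exp_sum, ← Complex.exp_sum, ← Complex.exp_add, ← Complex.exp_add]
      congr 1
      set A : J → L := fun j => ∑ n ∈ I, t n • (U j ^ n) (Z j) with hA
      have e0 : ∀ (S : L →ₗ[ℝ] L) (y : L),
          ∑ n ∈ I, t n • (S ^ (n + 1)) y = S (∑ n ∈ I, t n • (S ^ n) y) := by
        intro S y
        simp only [map_sum, map_smul, pow_succ', Module.End.mul_apply]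
      have e1 : ∀ Y : J → ℕ → L, ∑ n ∈ I, t n • ∑ j, Y j n = ∑ j, ∑ n ∈ I, t n • Y j n := by
        intro Y
        simp only [Finset.smul_sum]
        exact Finset.sum_comm
      have e2 : ∀ Y Y' : ℕ → L, ∑ n ∈ I, t n • s • (Y n - Y' n)
          = s • (∑ n ∈ I, t n • Y n - ∑ n ∈ I, t n • Y' n) := by
        intro Y Y'
        simp only [smul_comm (t _) s, ← Finset.smul_sum, smul_sub, Finset.sum_sub_distrib]
      have e3 : ∀ Y : ℕ → L, ∑ n ∈ I, t n • s • Y n = s • ∑ n ∈ I, t n • Y n := by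
        intro Y
        simp only [smul_comm (t _) s, ← Finset.smul_sum]
      have e4 := psi_pairs (m := m) hB hs (A := A) (A' := fun j => U j (A j))
        (fun j => (hUi j).1 _ _) (fun j => (hUi j).2 _)
      have e5 : ∀ (p : J × J) (y : L), psi B m (s • W p y) = psi B m (s • y) := by
        intro p y
        rw [← map_smul, (hW p).psi]
      simp only [hV, hRr, Fintype.sum_sum_type, Sum.elim_inl, Sum.elim_inr, e1, e2, e3, e0, e5]
      rw [← add_assoc, ← add_assoc]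
      congr 1)
    (C := Complex.exp (∑ k, psi B m (Rr k 0 + Qf k))) (Complex.exp_ne_zero _)
    (fun n => by
      simp only [add]
      rw [← Complex.exp_sum]
      congr 1
      simp only [hRr, hQf, Fintype.sum_sum_type, Sum.elim_inl, Sum.elim_inr, add_zero,
        ← Finset.sum_add_distrib]
      refine Finset.sum_congr rfl fun p _ => ?_
      exact psi_cancel hB s (((hUi _).pow n).1 _ _) (((hUi _).pow n).1 _ _) (((hW p).pow n).1 _ _)
        rfl (((hUi _).pow n).2 _) (((hUi _).pow n).2 _) (((hW p).pow n).2 _) rfl (hcd p n)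
        (hcd p 0))
  filter_upwards [main] with x hx
  have e : ∀ n, ex ((V n : X → ℝ) x) = ∏ j, ex ((Z j : X → ℝ) ((T j)^[n] x)) := by
    intro n
    rw [← ex_sum]
    congr 1
    simp only [hV, hU, Submodule.coe_sum, Finset.sum_apply, cmp_pow, Function.comp_apply]
  simpa only [e] using hx

end Pool.Agent.Lib.MP_cc859a_an
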