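import Pool.Agent.Lib.MP_cc859a_an.Main

set_option autoImplicit false

namespace Pool.Agent.Lib.MP_cc859a_an.GaussianOld

open MeasureTheory ProbabilityTheory Filter Topology

/-- Pointwise multiple ergodic theorem for Gaussian systems.  `T j` are commuting invertible measure
preserving maps, `ξ` is a jointly Gaussian family of measurable real functions closed under composition
with the maps `T j` and their inverses, and the bounded functions `f j` are measurable, up to null sets,
for the sigma-algebra generated by the family.  With `T j` the power `j + 1` of one map and `k = 3` the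
averages are those of the problem. -/
theorem result {X : Type*} [MeasurableSpace X] (μ : Measure X) [IsProbabilityMeasure μ]
    (k : ℕ) (T : Fin k → X ≃ᵐ X) (hT : ∀ j, MeasurePreserving (T j) μ μ)
    (hcomm : ∀ i j x, T i (T j x) = T j (T i x))
    {ι : Type*} (ξ : ι → X → ℝ) (hξ : ∀ i, Measurable (ξ i)) (hG : IsGaussianProcess ξ μ)
    (hc : ∀ j i, ∃ i', ξ i ∘ T j = ξ i') (hc' : ∀ j i, ∃ i', ξ i ∘ (T j).symm = ξ i')
    (f : Fin k → X → ℂ) (hf : ∀ j, MemLp (f j) ⊤ μ)
    (hm : ∀ j, AEStronglyMeasurable[⨆ i, MeasurableSpace.comap (ξ i) inferInstance] (f j) μ) :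
    ∀ᵐ x ∂μ, ∃ l : ℂ, Tendsto
      (fun N : ℕ => (1 / (N : ℂ)) * ∑ n ∈ Finset.Icc 1 N, ∏ j, f j ((T j)^[n] x)) atTop (𝓝 l) :=
  Pool.Agent.Lib.MP_cc859a_an.main hξ hG T hT hcomm hc hc' f hf hm

end Pool.Agent.Lib.MP_cc859a_an.GaussianOld
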