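import Pool.Agent.Lib.MP_cc859a_an.Gauss

set_option autoImplicit false

/-!
Pointwise multiple ergodic theorem for functions of a Gaussian family.
-/

namespace Pool.Agent.Lib.MP_cc859a_an

open MeasureTheory ProbabilityTheory Filter Topology Set

variable {X : Type*} [MeasurableSpace X] {μ : Measure X} {ι : Type*} {ξ : ι → X → ℝ}

lemma span_gauss (hG : IsGaussianProcess ξ μ) :
    ∀ Z ∈ Submodule.span ℝ (range ξ), HasGaussianLaw Z μ := by
  intro Z hZ
  obtain ⟨c, rfl⟩ := Finsupp.mem_span_range_iff_exists_finsupp.1 hZ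
  exact (hG.smul c).hasGaussianLaw_sum

lemma span_meas (hξ : ∀ i, Measurable (ξ i)) :
    ∀ Z ∈ Submodule.span ℝ (range ξ), Measurable Z := by
  intro Z hZ
  induction hZ using Submodule.span_induction with
  | mem _ h => obtain ⟨i, rfl⟩ := h; exact hξ i
  | zero => exact measurable_const
  | add _ _ _ _ h1 h2 => exact h1.add h2
  | smul a _ _ h => exact h.const_smul a

omit [MeasurableSpace X] in
lemma span_comp {S : X → X} (h : ∀ i, ∃ i', ξ i ∘ S = ξ i') :
    ∀ Z ∈ Submodule.span ℝ (range ξ), Z ∘ S ∈ Submodule.span ℝ (range ξ) := by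
  intro Z hZ
  induction hZ using Submodule.span_induction with
  | mem _ h' =>
    obtain ⟨i, rfl⟩ := h'
    obtain ⟨i', e⟩ := h i
    exact Submodule.subset_span ⟨i', e.symm⟩
  | zero => exact Submodule.zero_mem _
  | add _ _ _ _ h1 h2 => exact Submodule.add_mem _ h1 h2
  | smul a _ _ h => exact Submodule.smul_mem _ a h

theorem bounded_conv [IsProbabilityMeasure μ] (hξ : ∀ i, Measurable (ξ i))
    {J : Type*} [Fintype J] {T : J → X → X} (hT : ∀ j, MeasurePreserving (T j) μ μ)
    (base : ∀ Z : J → Submodule.span ℝ (range ξ), ∀ᵐ x ∂μ, ∃ l,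
      Tendsto (av fun n => ∏ j, ex ((Z j : X → ℝ) ((T j)^[n] x))) atTop (𝓝 l))
    (f : J → X → ℂ)
    (hf : ∀ j, StronglyMeasurable[⨆ i, MeasurableSpace.comap (ξ i) inferInstance] (f j) ∧
      ∃ B, ∀ x, ‖f j x‖ ≤ B) :
    ∀ᵐ x ∂μ, ∃ l, Tendsto (av fun n => ∏ j, f j ((T j)^[n] x)) atTop (𝓝 l) := by
  classical
  have claim : ∀ s : Finset J, ∀ f : J → X → ℂ,
      (∀ j ∈ s, StronglyMeasurable[⨆ i, MeasurableSpace.comap (ξ i) inferInstance] (f j) ∧
        ∃ B, ∀ x, ‖f j x‖ ≤ B) →
      (∀ j ∉ s, ∃ Z : Submodule.span ℝ (range ξ), f j = fun x => ex ((Z : X → ℝ) x)) →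
      ∀ᵐ x ∂μ, ∃ l, Tendsto (av fun n => ∏ j, f j ((T j)^[n] x)) atTop (𝓝 l) := by
    intro s
    induction s using Finset.induction_on with
    | empty =>
      intro f _ h2
      choose Z hZ using fun j => h2 j (Finset.notMem_empty j)
      simpa only [hZ] using base Z
    | insert a s ha ih =>
      intro f h1 h2
      have hb : ∀ j, ∃ B, ∀ x, ‖f j x‖ ≤ B := by
        intro j
        by_cases hj : j ∈ insert a s
        · exact (h1 j hj).2
        · obtain ⟨Z, hZ⟩ := h2 j hj
          exact ⟨1, fun x => by rw [hZ]; exact (norm_ex _).le⟩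
      choose b hb using hb
      set w : ℕ → X → ℂ := fun n x => ∏ j ∈ Finset.univ.erase a, f j ((T j)^[n] x) with hw
      have hwb : ∀ n x, ‖w n x‖ ≤ ∏ j ∈ Finset.univ.erase a, b j := by
        intro n x
        rw [hw, norm_prod]
        exact Finset.prod_le_prod (fun j _ => norm_nonneg _) fun j _ => hb j _
      have e : ∀ (g : X → ℂ) (n : ℕ) (x : X),
          ∏ j, Function.update f a g j ((T j)^[n] x) = g ((T a)^[n] x) * w n x := by
        intro g n x
        rw [← Finset.mul_prod_erase Finset.univ _ (Finset.mem_univ a), Function.update_self]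
        congr 1
        refine Finset.prod_congr rfl fun j hj => ?_
        rw [Function.update_of_ne (Finset.ne_of_mem_erase hj)]
      have h3 := Conv.dense (S := T a) (w := w) (hT a) hwb hξ (fun I c => by
        have h4 := ih (Function.update f a fun x => ex (∑ p ∈ I, c p * ξ p x))
          (fun j hj => by
            rw [Function.update_of_ne (by rintro rfl; exact ha hj)]
            exact h1 j (Finset.mem_insert_of_mem hj))
          (fun j hj => by
            by_cases hja : j = a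
            · subst hja
              refine ⟨⟨∑ p ∈ I, c p • ξ p, Submodule.sum_mem _ fun p _ =>
                Submodule.smul_mem _ _ (Submodule.subset_span ⟨p, rfl⟩)⟩, ?_⟩
              rw [Function.update_self]
              funext x
              simp [Finset.sum_apply]
            · rw [Function.update_of_ne hja]
              exact h2 j (by simp [hja, hj]))
        simpa only [e, Conv] using h4) (h1 a (Finset.mem_insert_self a s)).1 (hb a)
      have e' := e (f a)
      rw [Function.update_eq_self] at e'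
      simpa only [e', Conv] using h3
  exact claim Finset.univ f (fun j _ => hf j) fun j hj => absurd (Finset.mem_univ j) hj

lemma exists_bounded_version {m : MeasurableSpace X} {m₀ : MeasurableSpace X} {μ : Measure[m₀] X}
    {f : X → ℂ} (h1 : MemLp f ⊤ μ) (h2 : AEStronglyMeasurable[m] f μ) :
    ∃ g : X → ℂ, (StronglyMeasurable[m] g ∧ ∃ B, ∀ x, ‖g x‖ ≤ B) ∧ f =ᵐ[μ] g := by
  set C := (eLpNormEssSup f μ).toReal with hC
  have hfin : eLpNormEssSup f μ ≠ ⊤ := by
    have := h1.2.ne
    rwa [eLpNorm_exponent_top] at this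
  have hb : ∀ᵐ x ∂μ, ‖f x‖ ≤ C := by
    filter_upwards [ae_le_eLpNormEssSup (f := f) (μ := μ)] with x hx
    rw [← toReal_enorm]
    exact ENNReal.toReal_mono hfin hx
  refine ⟨{x | ‖h2.mk f x‖ ≤ C}.indicator (h2.mk f), ⟨?_, C, fun x => ?_⟩, ?_⟩
  · exact h2.stronglyMeasurable_mk.indicator
      (measurableSet_le h2.stronglyMeasurable_mk.norm.measurable measurable_const)
  · by_cases hx : x ∈ {x | ‖h2.mk f x‖ ≤ C}
    · rw [indicator_of_mem hx]; exact hx
    · rw [indicator_of_notMem hx, norm_zero]; exact ENNReal.toReal_nonneg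
  · filter_upwards [hb, h2.ae_eq_mk] with x hx e
    rw [indicator_of_mem (show x ∈ {x | ‖h2.mk f x‖ ≤ C} by
      show ‖h2.mk f x‖ ≤ C
      rw [← e]; exact hx), e]

lemma tendsto_Icc {u : ℕ → ℂ} {l : ℂ} (h : Tendsto (av u) atTop (𝓝 l)) :
    Tendsto (fun N : ℕ => (1 / (N : ℂ)) * ∑ n ∈ Finset.Icc 1 N, u n) atTop (𝓝 l) := by
  have h0 : Tendsto (fun N : ℕ => (N : ℂ)⁻¹) atTop (𝓝 0) := tendsto_inv_atTop_nhds_zero_nat
  have h1 := (h.comp (tendsto_add_atTop_nat 1))
  have h2 := ((h0.const_add 1).mul h1).sub (h0.mul_const (u 0))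
  simp only [add_zero, one_mul, zero_mul, sub_zero] at h2
  refine h2.congr' ?_
  filter_upwards [eventually_gt_atTop 0] with N hN
  have hN0 : (N : ℂ) ≠ 0 := by exact_mod_cast hN.ne'
  have hN1 : (N : ℂ) + 1 ≠ 0 := by exact_mod_cast Nat.succ_ne_zero N
  have e : ∑ n ∈ Finset.range (N + 1), u n = ∑ n ∈ Finset.Icc 1 N, u n + u 0 := by
    rw [Finset.range_eq_Ico, Finset.sum_eq_sum_Ico_succ_bot (Nat.succ_pos N), add_comm]
    rfl
  simp only [Function.comp_apply, av, e]
  push_cast
  field_simp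
  ring

theorem main [IsProbabilityMeasure μ] (hξ : ∀ i, Measurable (ξ i)) (hG : IsGaussianProcess ξ μ)
    {J : Type*} [Fintype J] (T : J → X ≃ᵐ X) (hT : ∀ j, MeasurePreserving (T j) μ μ)
    (hcomm : ∀ i j x, T i (T j x) = T j (T i x))
    (hc : ∀ j i, ∃ i', ξ i ∘ T j = ξ i') (hc' : ∀ j i, ∃ i', ξ i ∘ (T j).symm = ξ i')
    (f : J → X → ℂ) (h1 : ∀ j, MemLp (f j) ⊤ μ)
    (h2 : ∀ j, AEStronglyMeasurable[⨆ i, MeasurableSpace.comap (ξ i) inferInstance] (f j) μ) :
    ∀ᵐ x ∂μ, ∃ l : ℂ, Tendsto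
      (fun N : ℕ => (1 / (N : ℂ)) * ∑ n ∈ Finset.Icc 1 N, ∏ j, f j ((T j)^[n] x)) atTop (𝓝 l) := by
  choose g hg e using fun j => exists_bounded_version (h1 j) (h2 j)
  have h3 := bounded_conv hξ (T := fun j => T j) hT (gauss_conv (span_gauss hG) (span_meas hξ) hT
    (fun j => span_comp (hc j)) fun i j => ⟨T j ∘ (T i).symm, (hT j).comp (hT i).symm,
      fun Z hZ => span_comp (hc' i) _ (span_comp (hc j) Z hZ), Or.inl fun n => by
        have c1 : Function.Commute (T j ∘ (T i).symm) (T i) := by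
          intro x
          simp only [Function.comp_apply, MeasurableEquiv.symm_apply_apply]
          rw [hcomm i j, MeasurableEquiv.apply_symm_apply]
        rw [← c1.comp_iterate]
        congr 1
        funext x
        simp⟩) g hg
  have h4 : ∀ᵐ x ∂μ, ∀ j n, f j ((T j)^[n] x) = g j ((T j)^[n] x) := by
    rw [ae_all_iff]
    exact fun j => ae_iterate (hT j) (e j)
  filter_upwards [h3, h4] with x ⟨l, hl⟩ hx
  exact ⟨l, by simpa only [hx] using tendsto_Icc hl⟩

end Pool.Agent.Lib.MP_cc859a_an
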