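import Pool.Agent.Lib.MP_cc859a_an.Birkhoff

set_option autoImplicit false

/-!
Uniqueness of measures on a product of lines from their finite-dimensional characteristic functions, and
the stationarisation lemma: if adding independent noise turns a sequence into a stationary one, then the
averages of the exponentials of the sequence converge almost everywhere.
-/

namespace Pool.Agent.Lib.MP_cc859a_an

open MeasureTheory Filter Topology Set

/-- the character `t ↦ exp (i t)` -/
noncomputable def ex (t : ℝ) : ℂ := Complex.exp (t * Complex.I)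

lemma ex_add (s t : ℝ) : ex (s + t) = ex s * ex t := by
  simp [ex, add_mul, Complex.exp_add]

lemma ex_zero : ex 0 = 1 := by simp [ex]

lemma norm_ex (t : ℝ) : ‖ex t‖ = 1 := Complex.norm_exp_ofReal_mul_I t

lemma ex_sum {κ : Type*} (s : Finset κ) (t : κ → ℝ) : ex (∑ c ∈ s, t c) = ∏ c ∈ s, ex (t c) := by
  classical
  induction s using Finset.induction_on with
  | empty => simp [ex_zero]
  | insert a s ha ih => rw [Finset.sum_insert ha, Finset.prod_insert ha, ex_add, ih]

lemma continuous_ex : Continuous ex := by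
  unfold ex; fun_prop

lemma measurable_ex : Measurable ex := continuous_ex.measurable

lemma conj_ex_neg (t : ℝ) : (starRingEnd ℂ) (ex (-t)) = ex t := by
  simp [ex, ← Complex.exp_conj]

lemma ext_pi {κ : Type*} (ν₁ ν₂ : Measure (κ → ℝ)) [IsFiniteMeasure ν₁] [IsFiniteMeasure ν₂]
    (h : ∀ (I : Finset κ) (c : κ → ℝ),
      ∫ y, ex (∑ p ∈ I, c p * y p) ∂ν₁ = ∫ y, ex (∑ p ∈ I, c p * y p) ∂ν₂) : ν₁ = ν₂ := by
  classical
  have h1 : IsProjectiveLimit (α := fun _ : κ => ℝ) ν₁ (fun I => ν₁.map I.restrict) :=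
    fun I => rfl
  have h2 : IsProjectiveLimit (α := fun _ : κ => ℝ) ν₂ (fun I => ν₁.map I.restrict) := by
    intro I
    refine Measure.ext_of_charFunDual (funext fun L => ?_)
    set c : κ → ℝ := fun p => if hp : p ∈ I then L (fun j => if (⟨p, hp⟩ : I) = j then 1 else 0)
      else 0 with hc
    have e : ∀ y : κ → ℝ, L (I.restrict y) = ∑ p ∈ I, c p * y p := by
      intro y
      have := LinearMap.pi_apply_eq_sum_univ (L : (I → ℝ) →ₗ[ℝ] ℝ) (I.restrict y)
      rw [ContinuousLinearMap.coe_coe] at this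
      rw [this, ← Finset.sum_coe_sort I]
      refine Finset.sum_congr rfl fun p _ => ?_
      simp [hc, mul_comm]
    have m : Measurable fun v : I → ℝ => Complex.exp ((L v : ℝ) * Complex.I) :=
      measurable_ex.comp L.continuous.measurable
    rw [charFunDual_apply, charFunDual_apply,
      integral_map (Finset.measurable_restrict I).aemeasurable m.aestronglyMeasurable,
      integral_map (Finset.measurable_restrict I).aemeasurable m.aestronglyMeasurable]
    simp only [e]
    exact (h I c).symm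
  exact h1.unique h2

variable {X : Type*} [MeasurableSpace X] {μ : Measure X}

/-- the expectation of `exp (i Z)` -/
noncomputable def chi (μ : Measure X) (Z : X → ℝ) : ℂ := ∫ x, ex (Z x) ∂μ

lemma integral_pi_ex [IsProbabilityMeasure μ] {κ : Type*} [Fintype κ] (Z : κ → X → ℝ) :
    ∫ η : κ → X, ex (∑ c, Z c (η c)) ∂(Measure.pi fun _ => μ) = ∏ c, chi μ (Z c) := by
  simp only [ex_sum]
  exact integral_fintype_prod_eq_prod (fun c x => ex (Z c x))

lemma integral_prod_ex [IsProbabilityMeasure μ] {κ : Type*} [Fintype κ] (W : X → ℝ)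
    (Z : κ → X → ℝ) :
    ∫ ω : X × (κ → X), ex (W ω.1 + ∑ c, Z c (ω.2 c)) ∂(μ.prod (Measure.pi fun _ => μ))
      = chi μ W * ∏ c, chi μ (Z c) := by
  simp only [ex_add]
  rw [integral_prod_mul (fun x => ex (W x)) (fun η : κ → X => ex (∑ c, Z c (η c))), integral_pi_ex]
  rfl

lemma shift_iterate (n : ℕ) : ∀ (y : ℕ → ℝ) (k : ℕ),
    (fun (y : ℕ → ℝ) (n : ℕ) => y (n + 1))^[n] y k = y (k + n) := by
  induction n with
  | zero => intro y k; rfl
  | succ n ih => intro y k; rw [Function.iterate_succ_apply, ih]; rfl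

/-- averages of exponentials of a sequence that is stationary in law -/
lemma stationary_conv {Ω : Type*} [MeasurableSpace Ω] {P : Measure Ω} [IsFiniteMeasure P]
    {Y : ℕ → Ω → ℝ} (hY : ∀ n, Measurable (Y n))
    (h : ∀ (I : Finset ℕ) (t : ℕ → ℝ),
      ∫ ω, ex (∑ n ∈ I, t n * Y n ω) ∂P = ∫ ω, ex (∑ n ∈ I, t n * Y (n + 1) ω) ∂P) :
    ∀ᵐ ω ∂P, ∃ L, Tendsto (av fun n => ex (Y n ω)) atTop (𝓝 L) := by
  set Φ : Ω → ℕ → ℝ := fun ω n => Y n ω with hΦ
  have Φm : Measurable Φ := measurable_pi_lambda _ hY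
  set σ : (ℕ → ℝ) → ℕ → ℝ := fun y n => y (n + 1) with hσ
  have σm : Measurable σ := measurable_pi_lambda _ fun n => measurable_pi_apply (n + 1)
  have mm : ∀ (I : Finset ℕ) (t : ℕ → ℝ), Measurable fun y : ℕ → ℝ => ex (∑ n ∈ I, t n * y n) :=
    fun I t => measurable_ex.comp
      (Finset.measurable_sum _ fun n _ => measurable_const.mul (measurable_pi_apply n))
  have hmp : MeasurePreserving σ (P.map Φ) (P.map Φ) := by
    refine ⟨σm, ?_⟩
    rw [Measure.map_map σm Φm]
    refine ext_pi _ _ fun I t => ?_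
    rw [integral_map (σm.comp Φm).aemeasurable (mm I t).aestronglyMeasurable,
      integral_map Φm.aemeasurable (mm I t).aestronglyMeasurable]
    exact (h I t).symm
  have h1 := birkhoff hmp (f := fun y => ex (y 0)) (measurable_ex.comp (measurable_pi_apply 0))
    (B := 1) fun y => (norm_ex _).le
  filter_upwards [ae_of_ae_map Φm.aemeasurable h1] with ω hω
  simpa only [hσ, shift_iterate, zero_add] using hω

lemma norm_av_le {u : ℕ → ℂ} {B : ℝ} (hB : ∀ k, ‖u k‖ ≤ B) (N : ℕ) : ‖av u N‖ ≤ B := by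
  have hB0 : 0 ≤ B := le_trans (norm_nonneg _) (hB 0)
  rcases Nat.eq_zero_or_pos N with rfl | hN
  · simpa [av] using hB0
  have hNpos : (0 : ℝ) < N := by exact_mod_cast hN
  have h1 : ‖∑ k ∈ Finset.range N, u k‖ ≤ N * B := by
    refine le_trans (norm_sum_le _ _) ?_
    refine le_trans (Finset.sum_le_sum fun k _ => hB k) ?_
    simp
  rw [av, norm_mul, norm_inv, Complex.norm_natCast, inv_mul_le_iff₀ hNpos]
  exact h1

/-- Stationarisation. -/
theorem station [IsProbabilityMeasure μ] {κ : Type*} [Fintype κ] {V : ℕ → X → ℝ}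
    {R : κ → ℕ → X → ℝ} {Q : κ → X → ℝ} (hV : ∀ n, Measurable (V n))
    (hR : ∀ c n, Measurable (R c n)) (hQ : ∀ c, Measurable (Q c))
    (h1 : ∀ (I : Finset ℕ) (t : ℕ → ℝ),
      chi μ (fun x => ∑ n ∈ I, t n * V n x) * ∏ c, chi μ (fun x => ∑ n ∈ I, t n * R c n x)
        = chi μ (fun x => ∑ n ∈ I, t n * V (n + 1) x)
          * ∏ c, chi μ (fun x => ∑ n ∈ I, t n * R c (n + 1) x))
    {C : ℂ} (hC : C ≠ 0) (h2 : ∀ n, ∏ c, chi μ (fun x => R c n x + Q c x) = C) :
    ∀ᵐ x ∂μ, ∃ L, Tendsto (av fun n => ex (V n x)) atTop (𝓝 L) := by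
  set ν : Measure (κ → X) := Measure.pi fun _ => μ with hν
  set Y : ℕ → X × (κ → X) → ℝ := fun n ω => V n ω.1 + ∑ c, R c n (ω.2 c) with hY
  have Ym : ∀ n, Measurable (Y n) := fun n => ((hV n).comp measurable_fst).add
    (Finset.measurable_sum _ fun c _ => (hR c n).comp ((measurable_pi_apply c).comp measurable_snd))
  have e : ∀ (I : Finset ℕ) (t : ℕ → ℝ) (s : ℕ),
      ∫ ω, ex (∑ n ∈ I, t n * Y (n + s) ω) ∂(μ.prod ν)
        = chi μ (fun x => ∑ n ∈ I, t n * V (n + s) x)
          * ∏ c, chi μ (fun x => ∑ n ∈ I, t n * R c (n + s) x) := by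
    intro I t s
    rw [← integral_prod_ex]
    congr 1
    funext ω
    congr 1
    simp only [hY, mul_add, Finset.sum_add_distrib, Finset.mul_sum]
    rw [Finset.sum_comm]
  have h3 := stationary_conv (P := μ.prod ν) Ym fun I t => by
    have a0 := e I t 0
    simp only [add_zero] at a0
    rw [a0, e I t 1, h1]
  filter_upwards [Measure.ae_ae_of_ae_prod h3] with x hx
  set F : ℕ → (κ → X) → ℂ := fun N η =>
    av (fun n => ex (Y n (x, η))) N * ex (∑ c, Q c (η c)) with hF
  have Qm : Measurable fun η : κ → X => ex (∑ c, Q c (η c)) := measurable_ex.comp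
    (Finset.measurable_sum _ fun c _ => (hQ c).comp (measurable_pi_apply c))
  have Yx : ∀ n, Measurable fun η : κ → X => ex (Y n (x, η)) := fun n =>
    measurable_ex.comp ((Ym n).comp measurable_prodMk_left)
  have Fm : ∀ N, Measurable (F N) := fun N =>
    (measurable_const.mul (Finset.measurable_sum _ fun n _ => Yx n)).mul Qm
  have Fb : ∀ N η, ‖F N η‖ ≤ 1 := by
    intro N η
    rw [hF, norm_mul, norm_ex, mul_one]
    exact norm_av_le (fun k => (norm_ex _).le) N
  set G : (κ → X) → ℂ := fun η => limUnder atTop fun N => F N η with hG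
  have hlim : ∀ᵐ η ∂ν, Tendsto (fun N => F N η) atTop (𝓝 (G η)) := by
    filter_upwards [hx] with η ⟨L, hL⟩
    exact tendsto_nhds_limUnder ⟨_, hL.mul_const _⟩
  have h4 := tendsto_integral_of_dominated_convergence (fun _ => (1 : ℝ))
    (fun N => (Fm N).aestronglyMeasurable) (integrable_const 1)
    (fun N => Eventually.of_forall (Fb N)) hlim
  have h5 : ∀ N, ∫ η, F N η ∂ν = av (fun n => ex (V n x)) N * C := by
    intro N
    have i1 : ∀ n, Integrable (fun η : κ → X => ex (Y n (x, η)) * ex (∑ c, Q c (η c))) ν :=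
      fun n => Integrable.of_bound ((Yx n).mul Qm).aestronglyMeasurable 1
        (Eventually.of_forall fun η => by rw [norm_mul, norm_ex, norm_ex, mul_one])
    have i2 : ∀ n, ∫ η, ex (Y n (x, η)) * ex (∑ c, Q c (η c)) ∂ν = ex (V n x) * C := by
      intro n
      rw [← h2 n, ← integral_pi_ex, ← integral_const_mul]
      congr 1
      funext η
      simp only [hY, Finset.sum_add_distrib, ex_add, mul_assoc]
    simp only [hF, av, mul_assoc, Finset.sum_mul]
    rw [integral_const_mul, integral_finsetSum _ fun n _ => i1 n]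
    simp only [i2]
  simp only [h5] at h4
  refine ⟨(∫ η, G η ∂ν) * C⁻¹, ?_⟩
  refine (h4.mul_const C⁻¹).congr fun N => ?_
  rw [mul_assoc, mul_inv_cancel₀ hC, mul_one]

end Pool.Agent.Lib.MP_cc859a_an
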